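import Pool.Agent.H90.HW.Stmts

set_option autoImplicit false

namespace Pool.Agent.H90.HW

open Complex Polynomial

private theorem add_norm (p : Nat.Primes) (s : ℂ) {α : ℂ} {w : ℤ}
    (h : ‖α‖ = ((p : ℕ) : ℝ) ^ ((w : ℝ) / 2)) :
    ‖α * ((p : ℕ) : ℂ) ^ (-s)‖ = ((p : ℕ) : ℝ) ^ ((w : ℝ) / 2 - s.re) := by
  have hp : 0 < ((p : ℕ) : ℝ) := by exact_mod_cast p.2.pos
  rw [norm_mul, h, Complex.norm_natCast_cpow_of_pos p.2.pos, ← Real.rpow_add hp,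
    Complex.neg_re, sub_eq_add_neg]

open scoped Classical in
private theorem add_prod (μ ν : ℂ →₀ ℤ) (w : ℤ) (s : ℂ) (hs : (w : ℝ) / 2 - s.re < 0)
    (p : Nat.Primes) :
    ((μ + ν).prod fun α c => if ‖α‖ = ((p : ℕ) : ℝ) ^ ((w : ℝ) / 2) then
      (1 - α * ((p : ℕ) : ℂ) ^ (-s)) ^ (-c) else 1) =
    (μ.prod fun α c => if ‖α‖ = ((p : ℕ) : ℝ) ^ ((w : ℝ) / 2) then
      (1 - α * ((p : ℕ) : ℂ) ^ (-s)) ^ (-c) else 1) *
    (ν.prod fun α c => if ‖α‖ = ((p : ℕ) : ℝ) ^ ((w : ℝ) / 2) then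
      (1 - α * ((p : ℕ) : ℂ) ^ (-s)) ^ (-c) else 1) := by
  apply Finsupp.prod_add_index'
  · intro α
    simp
  · intro α b₁ b₂
    split_ifs with h
    · have h1 : (1 : ℂ) - α * ((p : ℕ) : ℂ) ^ (-s) ≠ 0 := by
        intro h2
        have h3 : ‖α * ((p : ℕ) : ℂ) ^ (-s)‖ = 1 := by
          rw [← sub_eq_zero.1 h2, norm_one]
        rw [add_norm p s h] at h3
        have hp : (1 : ℝ) < ((p : ℕ) : ℝ) := by exact_mod_cast p.2.one_lt
        have h4 := Real.rpow_lt_one_of_one_lt_of_neg hp hs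
        linarith
      rw [neg_add, zpow_add₀ h1]
    · rw [mul_one]

theorem add (h : SMult) : SAdd := by
  intro μ ν B hμ hν w
  obtain ⟨c₁, h₁⟩ := h μ B hμ w
  obtain ⟨c₂, h₂⟩ := h ν B hν w
  refine ⟨max (max c₁ c₂) ((w : ℝ) / 2), fun s hs => ?_⟩
  have hs1 : c₁ < s.re := lt_of_le_of_lt ((le_max_left _ _).trans (le_max_left _ _)) hs
  have hs2 : c₂ < s.re := lt_of_le_of_lt ((le_max_right _ _).trans (le_max_left _ _)) hs
  have hs3 : (w : ℝ) / 2 < s.re := lt_of_le_of_lt (le_max_right _ _) hs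
  unfold Lfun
  rw [← Multipliable.tprod_mul (h₁ s hs1) (h₂ s hs2)]
  refine tprod_congr fun p => ?_
  exact add_prod (μ p) (ν p) w s (by linarith) p

end Pool.Agent.H90.HW
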