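import Pool.Agent.H90.HW.Stmts

set_option autoImplicit false

namespace Pool.Agent.H90.HW

open Complex Polynomial

theorem indep : SIndep := by
  intro c k₀ hc
  have key : ∀ P : ℂ[X], ∑ α ∈ c.support, c α * (α ^ k₀ * P.eval α) = 0 := by
    intro P
    have h1 : ∀ α ∈ c.support, c α * (α ^ k₀ * P.eval α) =
        ∑ i ∈ Finset.range (P.natDegree + 1), P.coeff i * (c α * α ^ (k₀ + i)) := by
      intro α _
      rw [Polynomial.eval_eq_sum_range, Finset.mul_sum, Finset.mul_sum]
      refine Finset.sum_congr rfl fun i _ => ?_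
      rw [pow_add]
      ring
    rw [Finset.sum_congr rfl h1, Finset.sum_comm]
    refine Finset.sum_eq_zero fun i _ => ?_
    rw [← Finset.mul_sum]
    have h2 := hc (k₀ + i) (Nat.le_add_right _ _)
    rw [Finsupp.sum] at h2
    rw [h2, mul_zero]
  intro α hα
  by_contra hne
  classical
  have h1 := key (∏ β ∈ c.support.erase α, (X - C β))
  rw [← Finset.add_sum_erase _ _ (Finsupp.mem_support_iff.2 hne)] at h1
  rw [Finset.sum_eq_zero (s := c.support.erase α), add_zero] at h1
  · rw [Polynomial.eval_prod] at h1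
    have h2 : ∏ β ∈ c.support.erase α, Polynomial.eval α (X - C β) ≠ 0 := by
      rw [Finset.prod_ne_zero_iff]
      intro β hβ
      rw [Polynomial.eval_sub, Polynomial.eval_X, Polynomial.eval_C]
      exact sub_ne_zero.2 (Finset.ne_of_mem_erase hβ).symm
    exact mul_ne_zero hne (mul_ne_zero (pow_ne_zero _ hα) h2) h1
  · intro β hβ
    rw [Polynomial.eval_prod]
    rw [Finset.prod_eq_zero hβ]
    · ring
    · rw [Polynomial.eval_sub, Polynomial.eval_X, Polynomial.eval_C, sub_self]

end Pool.Agent.H90.HW
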