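import Pool.Agent.H90.HW.Stmts

set_option autoImplicit false

namespace Pool.Agent.H90.HW

open Complex Polynomial

private theorem mult_mul {F G : ℂ} {t : ℝ} (ht : 0 ≤ t) {m n : ℕ}
    (hF : ‖F - 1‖ ≤ (1 + t) ^ m - 1) (hG : ‖G - 1‖ ≤ (1 + t) ^ n - 1) :
    ‖F * G - 1‖ ≤ (1 + t) ^ (m + n) - 1 := by
  have e : F * G - 1 = (F - 1) * (G - 1) + (F - 1) + (G - 1) := by ring
  have h1 : 0 ≤ (1 + t) ^ m - 1 := by
    have := one_le_pow₀ (n := m) (by linarith : (1 : ℝ) ≤ 1 + t)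
    linarith
  calc ‖F * G - 1‖ ≤ ‖F - 1‖ * ‖G - 1‖ + ‖F - 1‖ + ‖G - 1‖ := by
        rw [e]
        refine (norm_add_le _ _).trans ?_
        gcongr
        refine (norm_add_le _ _).trans ?_
        rw [norm_mul]
    _ ≤ ((1 + t) ^ m - 1) * ((1 + t) ^ n - 1) + ((1 + t) ^ m - 1) + ((1 + t) ^ n - 1) := by
        gcongr
    _ = (1 + t) ^ (m + n) - 1 := by rw [pow_add]; ring

private theorem mult_pow {F : ℂ} {t : ℝ} (ht : 0 ≤ t) (hF : ‖F - 1‖ ≤ t) (n : ℕ) :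
    ‖F ^ n - 1‖ ≤ (1 + t) ^ n - 1 := by
  induction n with
  | zero => simp
  | succ n ih =>
    rw [pow_succ]
    exact mult_mul ht ih (by rw [pow_one]; linarith)

private theorem mult_zpow {x : ℂ} {δ : ℝ} (hδ : δ ≤ 1 / 2) (hx : ‖x‖ ≤ δ) (n : ℤ) :
    ‖(1 - x) ^ (-n) - 1‖ ≤ (1 + 2 * δ) ^ n.natAbs - 1 := by
  have hδ0 : 0 ≤ δ := (norm_nonneg _).trans hx
  have h1 : ‖(1 - x) - 1‖ ≤ 2 * δ := by
    rw [sub_sub_cancel_left, norm_neg]
    linarith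
  have h2 : (1 / 2 : ℝ) ≤ ‖1 - x‖ := by
    have := norm_sub_norm_le (1 : ℂ) x
    rw [norm_one] at this
    linarith
  have h3 : (1 - x) ≠ 0 := by
    intro h
    rw [h, norm_zero] at h2
    linarith
  have h4 : ‖(1 - x)⁻¹ - 1‖ ≤ 2 * δ := by
    have e : (1 - x)⁻¹ - 1 = x * (1 - x)⁻¹ := by
      field_simp
      ring
    rw [e, norm_mul, norm_inv]
    have h5 : ‖1 - x‖⁻¹ ≤ 2 := by
      rw [inv_le_comm₀ (by linarith) (by norm_num)]
      linarith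
    calc ‖x‖ * ‖1 - x‖⁻¹ ≤ δ * 2 := by gcongr
      _ = 2 * δ := by ring
  rcases Int.natAbs_eq n with h | h
  · rw [h, Int.natAbs_natCast, ← inv_zpow', zpow_natCast]
    exact mult_pow (by linarith) h4 _
  · rw [h, neg_neg, Int.natAbs_neg, Int.natAbs_natCast, zpow_natCast]
    exact mult_pow (by linarith) h1 _

private theorem mult_lin {t : ℝ} (ht : 0 ≤ t) (ht1 : t ≤ 1) (n : ℕ) :
    (1 + t) ^ n - 1 ≤ (2 ^ n - 1) * t := by
  induction n with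
  | zero => simp
  | succ n ih =>
    have h1 : (1 : ℝ) ≤ 2 ^ n := one_le_pow₀ (by norm_num)
    have h2 : 0 ≤ (2 ^ n - 1) * t * (1 - t) :=
      mul_nonneg (mul_nonneg (by linarith) ht) (by linarith)
    have h3 : (1 + t) ^ n * (1 + t) ≤ (1 + (2 ^ n - 1) * t) * (1 + t) :=
      mul_le_mul_of_nonneg_right (by linarith) (by linarith)
    rw [pow_succ, pow_succ]
    nlinarith

private theorem mult_norm (p : Nat.Primes) (s : ℂ) {α : ℂ} {w : ℤ}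
    (h : ‖α‖ = ((p : ℕ) : ℝ) ^ ((w : ℝ) / 2)) :
    ‖α * ((p : ℕ) : ℂ) ^ (-s)‖ = ((p : ℕ) : ℝ) ^ ((w : ℝ) / 2 - s.re) := by
  have hp : 0 < ((p : ℕ) : ℝ) := by exact_mod_cast p.2.pos
  rw [norm_mul, h, Complex.norm_natCast_cpow_of_pos p.2.pos, ← Real.rpow_add hp,
    Complex.neg_re, sub_eq_add_neg]

private theorem mult_half (p : Nat.Primes) {r : ℝ} (hr : r < -1) : ((p : ℕ) : ℝ) ^ r ≤ 1 / 2 := by
  have hp : (2 : ℝ) ≤ ((p : ℕ) : ℝ) := by exact_mod_cast p.2.two_le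
  calc ((p : ℕ) : ℝ) ^ r ≤ ((p : ℕ) : ℝ) ^ (-1 : ℝ) :=
        Real.rpow_le_rpow_of_exponent_le (by linarith) hr.le
    _ = (((p : ℕ) : ℝ))⁻¹ := Real.rpow_neg_one _
    _ ≤ 1 / 2 := by
      rw [one_div]
      exact inv_anti₀ (by norm_num) hp

open scoped Classical in
private theorem mult_bound (μ : Nat.Primes → ℂ →₀ ℤ) (B : ℕ)
    (hμ : ∀ p : Nat.Primes, ((μ p).sum fun _ c => |c|) ≤ B) (w : ℤ) (s : ℂ)
    (hs : (w : ℝ) / 2 - s.re < -1) (p : Nat.Primes) :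
    ‖((μ p).prod fun α c => if ‖α‖ = ((p : ℕ) : ℝ) ^ ((w : ℝ) / 2) then
      (1 - α * ((p : ℕ) : ℂ) ^ (-s)) ^ (-c) else 1) - 1‖ ≤
      (2 ^ B - 1) * 2 * ((p : ℕ) : ℝ) ^ ((w : ℝ) / 2 - s.re) := by
  set δ := ((p : ℕ) : ℝ) ^ ((w : ℝ) / 2 - s.re) with hδ
  have hδ2 : δ ≤ 1 / 2 := mult_half p hs
  have hδ0 : 0 ≤ δ := Real.rpow_nonneg (Nat.cast_nonneg _) _
  have h1 : ∀ m : Finset ℂ, ‖(∏ α ∈ m, if ‖α‖ = ((p : ℕ) : ℝ) ^ ((w : ℝ) / 2) then
      (1 - α * ((p : ℕ) : ℂ) ^ (-s)) ^ (-(μ p α)) else 1) - 1‖ ≤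
      (1 + 2 * δ) ^ (∑ α ∈ m, (μ p α).natAbs) - 1 := by
    intro m
    induction m using Finset.induction_on with
    | empty => simp
    | insert a m ha ih =>
      rw [Finset.prod_insert ha, Finset.sum_insert ha]
      refine mult_mul (by linarith) ?_ ih
      split_ifs with h
      · exact mult_zpow hδ2 (mult_norm p s h).le _
      · rw [sub_self, norm_zero]
        have := one_le_pow₀ (n := (μ p a).natAbs) (by linarith : (1 : ℝ) ≤ 1 + 2 * δ)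
        linarith
  have h2 : ∑ α ∈ (μ p).support, (μ p α).natAbs ≤ B := by
    have h3 := hμ p
    rw [Finsupp.sum] at h3
    have h4 : ((∑ α ∈ (μ p).support, (μ p α).natAbs : ℕ) : ℤ) ≤ B := by
      push_cast
      simpa using h3
    exact_mod_cast h4
  have h3 := h1 (μ p).support
  rw [Finsupp.prod]
  refine h3.trans ?_
  have h4 : (1 + 2 * δ) ^ (∑ α ∈ (μ p).support, (μ p α).natAbs) ≤ (1 + 2 * δ) ^ B :=
    pow_le_pow_right₀ (by linarith) h2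
  have h5 := mult_lin (t := 2 * δ) (by linarith) (by linarith) B
  linarith

open scoped Classical in
theorem mult : SMult := by
  intro μ B hμ w
  refine ⟨(w : ℝ) / 2 + 2, fun s hs => ?_⟩
  have hs' : (w : ℝ) / 2 - s.re < -1 := by linarith
  have h1 : Summable fun p : Nat.Primes => ‖((μ p).prod fun α c =>
      if ‖α‖ = ((p : ℕ) : ℝ) ^ ((w : ℝ) / 2) then
      (1 - α * ((p : ℕ) : ℂ) ^ (-s)) ^ (-c) else 1) - 1‖ :=
    Summable.of_nonneg_of_le (fun _ => norm_nonneg _) (mult_bound μ B hμ.2 w s hs')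
      ((Nat.Primes.summable_rpow.2 hs').mul_left _)
  have h2 := multipliable_one_add_of_summable h1
  simpa using h2

end Pool.Agent.H90.HW
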