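import Pool.Agent.H90.HW.Stmts

set_option autoImplicit false

namespace Pool.Agent.H90.HW

open Complex Polynomial

theorem rat (hI : SIndep) : SRat := by
  intro c b hc0 hb
  classical
  obtain ⟨φ, hφ⟩ := LinearMap.exists_leftInverse_of_injective (Algebra.linearMap ℚ ℂ)
    (LinearMap.ker_eq_bot.2 (algebraMap ℚ ℂ).injective)
  have hφ1 : ∀ q : ℚ, φ (q : ℂ) = q := by
    intro q
    have := LinearMap.congr_fun hφ q
    simpa using this
  have hφm : ∀ (z : ℂ) (q : ℚ), φ (z * q) = φ z * q := by
    intro z q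
    have h1 : z * (q : ℂ) = q • z := by
      rw [Algebra.smul_def, mul_comm]
      rfl
    rw [h1, map_smul, smul_eq_mul, mul_comm]
  set P : ℂ[X] := ∏ α ∈ c.support, (X - C α) with hP
  have hPm : P.Monic := monic_prod_of_monic _ _ fun α _ => monic_X_sub_C α
  set n := P.natDegree with hn
  let Q : ℚ[X] := ∑ i ∈ Finset.range (n + 1), C (φ (P.coeff i)) * X ^ i
  have hQc : ∀ i, i ≤ n → Q.coeff i = φ (P.coeff i) := by
    intro i hi
    show (∑ i ∈ Finset.range (n + 1), C (φ (P.coeff i)) * X ^ i : ℚ[X]).coeff i = _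
    rw [finsetSum_coeff, Finset.sum_eq_single i]
    · rw [coeff_C_mul, coeff_X_pow_self, mul_one]
    · intro j _ hj
      rw [coeff_C_mul, coeff_X_pow, if_neg (Ne.symm hj), mul_zero]
    · intro h
      exact absurd (Finset.mem_range.2 (by omega)) h
  have hQd : Q.natDegree ≤ n := by
    refine natDegree_sum_le_of_forall_le _ _ fun i hi => ?_
    refine (natDegree_C_mul_X_pow_le _ _).trans ?_
    exact Nat.lt_succ_iff.1 (Finset.mem_range.1 hi)
  have hQn : Q.coeff n = 1 := by
    rw [hQc n le_rfl, hn, coeff_natDegree, hPm.leadingCoeff]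
    have := hφ1 1
    simpa using this
  have hroot : ∀ α ∈ c.support, P.eval α = 0 := by
    intro α hα
    rw [hP, eval_prod]
    exact Finset.prod_eq_zero hα (by simp)
  -- the recurrence
  have hrec : ∀ k, 1 ≤ k → ∑ i ∈ Finset.range (n + 1), P.coeff i * (b (k + i) : ℂ) = 0 := by
    intro k hk
    have h1 : ∀ i ∈ Finset.range (n + 1), P.coeff i * (b (k + i) : ℂ) =
        ∑ α ∈ c.support, (c α : ℂ) * α ^ k * (P.coeff i * α ^ i) := by
      intro i _
      rw [← hb (k + i) (by omega), Finsupp.sum, Finset.mul_sum]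
      refine Finset.sum_congr rfl fun α _ => ?_
      rw [pow_add]
      ring
    rw [Finset.sum_congr rfl h1, Finset.sum_comm]
    refine Finset.sum_eq_zero fun α hα => ?_
    rw [← Finset.mul_sum]
    have h2 := hroot α hα
    rw [eval_eq_sum_range] at h2
    rw [h2, mul_zero]
  have hrec' : ∀ k, 1 ≤ k → ∑ i ∈ Finset.range (n + 1), Q.coeff i * b (k + i) = 0 := by
    intro k hk
    have h1 := congrArg φ (hrec k hk)
    rw [map_sum, map_zero] at h1
    rw [← h1]
    refine Finset.sum_congr rfl fun i hi => ?_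
    rw [hφm, hQc i (Nat.lt_succ_iff.1 (Finset.mem_range.1 hi))]
  have hQroot : ∀ α ∈ c.support, (Q.map (algebraMap ℚ ℂ)).eval α = 0 := by
    have h1 := hI (Finsupp.onFinset c.support
      (fun α => (c α : ℂ) * (Q.map (algebraMap ℚ ℂ)).eval α) (fun α hα => by
        rw [Finsupp.mem_support_iff]
        intro h
        apply hα
        rw [h]
        simp)) 1 (by
      intro k hk
      rw [Finsupp.onFinset_sum _ (fun α => by rw [zero_mul])]
      have h2 : ∀ α ∈ c.support, (c α : ℂ) * (Q.map (algebraMap ℚ ℂ)).eval α * α ^ k =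
          ∑ i ∈ Finset.range (n + 1), (Q.coeff i : ℂ) * ((c α : ℂ) * α ^ (k + i)) := by
        intro α _
        rw [eval_eq_sum_range' (n := n + 1) (by
          have : (Q.map (algebraMap ℚ ℂ)).natDegree ≤ Q.natDegree := natDegree_map_le
          omega), Finset.mul_sum, Finset.sum_mul]
        refine Finset.sum_congr rfl fun i _ => ?_
        rw [coeff_map, pow_add]
        have : (algebraMap ℚ ℂ) (Q.coeff i) = (Q.coeff i : ℂ) := rfl
        rw [this]
        ring
      rw [Finset.sum_congr rfl h2, Finset.sum_comm]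
      have h3 : ∀ i ∈ Finset.range (n + 1), ∑ α ∈ c.support,
          (Q.coeff i : ℂ) * ((c α : ℂ) * α ^ (k + i)) = ((Q.coeff i * b (k + i) : ℚ) : ℂ) := by
        intro i _
        rw [← Finset.mul_sum]
        have h4 := hb (k + i) (by omega)
        rw [Finsupp.sum] at h4
        rw [h4]
        push_cast
        rfl
      rw [Finset.sum_congr rfl h3, ← Rat.cast_sum, hrec' k hk]
      simp)
    intro α hα
    have h2 : α ≠ 0 := by
      rintro rfl
      exact (Finsupp.mem_support_iff.1 hα) hc0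
    have h3 := h1 α h2
    rw [Finsupp.onFinset_apply] at h3
    rcases mul_eq_zero.1 h3 with h | h
    · exact absurd (by exact_mod_cast h) (Finsupp.mem_support_iff.1 hα)
    · exact h
  have hdvd : P ∣ Q.map (algebraMap ℚ ℂ) := by
    refine Finset.prod_dvd_of_coprime ?_ fun α hα => ?_
    · intro α _ β _ hαβ
      exact isCoprime_X_sub_C_of_isUnit_sub (sub_ne_zero.2 hαβ).isUnit
    · exact dvd_iff_isRoot.2 (hQroot α hα)
  have hQnd : Q.natDegree = n := le_antisymm hQd (le_natDegree_of_ne_zero (by rw [hQn]; simp))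
  have hQm : Q.Monic := by
    rw [Monic, leadingCoeff, hQnd, hQn]
  refine ⟨Q, ?_⟩
  have hQm' : (Q.map (algebraMap ℚ ℂ)).Monic := hQm.map _
  refine (eq_of_monic_of_dvd_of_natDegree_le hPm hQm' hdvd ?_)
  rw [hQm.natDegree_map, hQnd]

end Pool.Agent.H90.HW
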